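import Pool.Agent.FLN.Main

set_option autoImplicit false

/-!
# Fluctuations of the averages of `f_1 (T_1^n x) ⋯ f_m (T_m^n x)`, nilpotent groups, all `m`

`jumps a ε F`: the largest `L` such that there are times `M_0 < … < M_L` in the finite set `F` with
`|a (M_(i+1)) - a (M_i)| ≥ ε` for all `i < L`.  `scales F`: the number of dyadic blocks `[2^j, 2^(j+1))` that meet `F`.

For all `k, m` there is a constant `C` such that for all invertible measure preserving maps `T_1, …, T_m` of a
probability space that generate a group of nilpotency class at most `k` and all `f_1, …, f_m` with `|f_j| ≤ 1`, the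
number of `ε`-fluctuations of `A_N (x)`, `N ∈ F`, is less than `((2 + log s + log (1/δ)) / ε)^C`, `s = scales F`,
for all `x` outside of a set of measure at most `δ`.  Corollary (Borel–Cantelli with `F = {1, …, 2^i}`, `δ = (i+1)^(-2)`):
for `f_j ∈ L^∞`, for almost every `x` and every `ε > 0` the number of `ε`-fluctuations of `A_1 (x), …, A_N (x)` is at most
`(log log N)^C` for all large `N`.

Proof.  A random dyadic clock; the orbit of `x` under `T_1` is cut into the dyadic windows of the clock.  On the windows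
`f_1` is approximated by few dual functions with random marks (energy decrement, resets); for a fixed distance `h` to the
mark the average against a dual function is an average of the same kind for the system of the maps `T_2, …, T_m` and
`T_j' = c_j⁻¹ T_j c_j`, `c_j = T_j^h T_1^(-h)`; since `T_j⁻¹ T_j'` is closer to `1` than `T_1⁻¹ T_j`, the induction
ends.
-/

open MeasureTheory
open scoped ENNReal

namespace Pool.Agent.Results.MP_4d8f14_an.LogLogFluctuations

universe u

/-- the averages of the problem for the sequences `T_j ^ n` -/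
noncomputable def avg {X : Type u} {m : ℕ} (T : Fin m → Equiv.Perm X) (f : Fin m → X → ℂ) (N : ℕ) (x : X) : ℂ :=
  ((2 * N + 1 : ℕ) : ℂ)⁻¹ * ∑ n ∈ Finset.Icc (-(N : ℤ)) (N : ℤ), ∏ j : Fin m, f j ((T j ^ n) x)

/-- the maximal number of `ε`-fluctuations of the sequence `a` along times in `F` -/
noncomputable def jumps (a : ℕ → ℂ) (ε : ℝ) (F : Finset ℕ) : ℕ :=
  sSup {L : ℕ | ∃ M : ℕ → ℕ, (∀ i ≤ L, M i ∈ F) ∧ (∀ i < L, M i < M (i + 1)) ∧
    ∀ i < L, ε ≤ ‖a (M (i + 1)) - a (M i)‖}

/-- the number of dyadic blocks `[2^j, 2^(j+1))` that meet `F` -/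
def scales (F : Finset ℕ) : ℕ := (F.image (Nat.log 2)).card

theorem result (k m : ℕ) :
    ∃ C : ℕ,
      ∀ (X : Type u) [MeasurableSpace X] (μ : Measure X) [IsProbabilityMeasure μ] (T : Fin m → Equiv.Perm X),
        (∀ i, Measurable ⇑(T i).symm) →
        (∀ i, MeasurePreserving (⇑(T i)) μ μ) →
        Group.IsNilpotent (Subgroup.closure (Set.range T)) →
        Group.nilpotencyClass (Subgroup.closure (Set.range T)) ≤ k →
        ∀ f : Fin m → X → ℂ,
          ((∀ j, AEStronglyMeasurable (f j) μ) → (∀ j, ∀ᵐ x ∂μ, ‖f j x‖ ≤ 1) →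
            ∀ ε δ : ℝ, 0 < ε → ε ≤ 1 → 0 < δ → δ ≤ 1 → ∀ F : Finset ℕ, F.Nonempty → (∀ n ∈ F, 1 ≤ n) →
              μ {x | ((2 + Real.log (scales F) + Real.log (1 / δ)) / ε) ^ C ≤
                (jumps (fun N => avg T f N x) ε F : ℝ)} ≤ ENNReal.ofReal δ) ∧
          ((∀ j, MemLp (f j) ∞ μ) → ∀ᵐ x ∂μ, ∀ ε : ℝ, 0 < ε → ∀ᶠ N : ℕ in Filter.atTop,
            (jumps (fun N => avg T f N x) ε (Finset.Icc 1 N) : ℝ) ≤ (Real.log (Real.log N)) ^ C) :=
  Pool.FLN.few k m

end Pool.Agent.Results.MP_4d8f14_an.LogLogFluctuations
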