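import Pool.Agent.Nil.Final

set_option autoImplicit false

/-!
# The case `m = 1` for nilpotent groups of arbitrary step

`T_1, …, T_d` are invertible measure preserving maps of a measure space that generate a nilpotent
group (of any step), `P_1, …, P_d` are arbitrary integer polynomials, and `f ∈ L²`.  The averages
of `f (T_1^{P_1(n)} ⋯ T_d^{P_d(n)} x)` over `n ∈ [-N, N]` converge for almost every `x`.

The proof is in `Pool/Agent/Nil`.  Main steps.

* Coordinates (`Frame`): the group generated by the values of a polynomial sequence has generators
  of weights `1, …, D`, in which multiplication and the iterated differences of the sequence are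
  weighted homogeneous, with exact control of divisibility.
* Inverse theorem (`Inv`): in every unitary representation, if the average of `g(λm) v` over `m < M` is not
  small, then `v` correlates with an average over a box of multiples of a small integer `q` in the
  coordinates, of sides a small power less than the natural ones.
* Maximal inequality in `L²` (`Dyad`, `Full`): Rademacher–Menshov and almost orthogonality for the part
  without small denominators, a sum over levels for the rest.
-/

open MeasureTheory
open scoped ENNReal

namespace Pool.Agent.Results.MP_4d8f14_an.NilpotentSingle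

universe u

theorem result :
    ∀ (X : Type u) [MeasurableSpace X] (μ : Measure X) (d : ℕ) (T : Fin d → Equiv.Perm X),
      (∀ i, Measurable ⇑(T i).symm) →
      (∀ i, MeasurePreserving (⇑(T i)) μ μ) →
      Group.IsNilpotent (Subgroup.closure (Set.range T)) →
      ∀ (P : Fin d → Polynomial ℤ) (f : X → ℂ), MemLp f 2 μ →
      ∀ᵐ x ∂μ, ∃ L : ℂ, Filter.Tendsto
        (fun N : ℕ => ((2 * N + 1 : ℕ) : ℂ)⁻¹ *
          ∑ n ∈ Finset.Icc (-(N : ℤ)) (N : ℤ),
            f ((List.ofFn fun i : Fin d => T i ^ (P i).eval n).prod x))
        Filter.atTop (nhds L) := by
  intro X _ μ d T hs hT hnil P f hf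
  have hT' : ∀ i, MeasurePreserving (T i).symm μ μ := by
    intro i
    have h := MeasurePreserving.symm (μa := μ) (μb := μ)
      { toEquiv := T i, measurable_toFun := (hT i).measurable, measurable_invFun := hs i } (hT i)
    exact h
  have h := Pool.Nil.orb_conv T hT hT' hnil P f hf
  filter_upwards [h] with x hx
  obtain ⟨L, hL⟩ := hx
  refine ⟨L, hL.congr fun N => ?_⟩
  push_cast
  rfl

end Pool.Agent.Results.MP_4d8f14_an.NilpotentSingle
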