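import Pool.Agent.PWM.StructB
import Pool.Agent.M3.Main

set_option autoImplicit false

open MeasureTheory Filter
open scoped ENNReal

namespace Pool.Agent.Results.MP_4d8f14_an.ThreeMapsPlus

/-- `h` is bounded and the commutator subgroup of `G` acts on `h` by unimodular `G`-invariant
functions `χ ν`, and `χ ν` depends only on the conjugacy class of `ν` in `G`. -/
def EigFun {X : Type} [MeasurableSpace X] (μ : Measure X) (G : Subgroup (Equiv.Perm X))
    (h : X → ℂ) : Prop :=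
  MemLp h ∞ μ ∧ ∃ χ : Equiv.Perm X → X → ℂ,
    (∀ ν ∈ ⁅G, G⁆, Measurable (χ ν)) ∧
    (∀ ν ∈ ⁅G, G⁆, ∀ᵐ x ∂μ, ‖χ ν x‖ = 1) ∧
    (∀ γ ∈ G, ∀ ν ∈ ⁅G, G⁆, ∀ᵐ x ∂μ, χ ν (γ x) = χ ν x) ∧
    (∀ γ ∈ G, ∀ ν ∈ ⁅G, G⁆, ∀ᵐ x ∂μ, χ (γ * ν * γ⁻¹) x = χ ν x) ∧
    ∀ ν ∈ ⁅G, G⁆, ∀ᵐ x ∂μ, h (ν x) = χ ν x * h x

/-- `f` lies in the closure in `L²` of the finite sums of functions `h` with `EigFun μ G h`. -/
def InE {X : Type} [MeasurableSpace X] (μ : Measure X) (G : Subgroup (Equiv.Perm X))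
    (f : X → ℂ) : Prop :=
  ∀ ε : ℝ, 0 < ε → ∃ (l : ℕ) (h : Fin l → X → ℂ), (∀ i, EigFun μ G (h i)) ∧
    eLpNorm (fun x => f x - ∑ i, h i x) 2 μ ≤ ENNReal.ofReal ε

/-- The maps `T i` are invertible and measure preserving, and they generate a nilpotent group. -/
structure IsSystem {X : Type} [MeasurableSpace X] (μ : Measure X) {d : ℕ}
    (T : Fin d → Equiv.Perm X) : Prop where
  measurable_symm : ∀ i, Measurable ⇑(T i).symm
  measurePreserving : ∀ i, MeasurePreserving (⇑(T i)) μ μ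
  isNilpotent : Group.IsNilpotent (Subgroup.closure (Set.range T))

/-- The sequence `n ↦ T_1 ^ P_1(n) ⋯ T_d ^ P_d(n)`. -/
def seq {X : Type} {d : ℕ} (T : Fin d → Equiv.Perm X) (P : Fin d → Polynomial ℤ) (n : ℤ) :
    Equiv.Perm X :=
  (List.ofFn fun i => T i ^ (P i).eval n).prod

/-- `f` lies in `E`, or `j` is the exceptional index `j₀` and the sequence consists of the powers
of one map. -/
def Free {X : Type} [MeasurableSpace X] (μ : Measure X) (G : Subgroup (Equiv.Perm X))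
    (j₀ : Fin 3) (g : Fin 3 → ℤ → Equiv.Perm X) (j : Fin 3) (f : X → ℂ) : Prop :=
  InE μ G f ∨ (j = j₀ ∧ ∃ V : Equiv.Perm X, ∀ n : ℤ, g j n = V ^ n)

/-- `u(x, n) = e(Φ_x(n))` with real polynomials `Φ_x` of degree at most three, and `u` is
`G`-invariant. -/
def Phase {X : Type} [MeasurableSpace X] (μ : Measure X) (G : Subgroup (Equiv.Perm X))
    (u : X → ℤ → ℂ) : Prop :=
  (∀ n, AEStronglyMeasurable (fun x => u x n) μ) ∧
    (∀ γ ∈ G, ∀ n, ∀ᵐ x ∂μ, u (γ x) n = u x n) ∧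
    ∀ᵐ x ∂μ, ∃ Φ : Polynomial ℝ, Φ.natDegree ≤ 3 ∧
      ∀ n : ℤ, u x n = Complex.exp (2 * Real.pi * Complex.I * (Φ.eval (n : ℝ) : ℝ))

/-- `f` is structured along the sequence `s`, relative to the sequences `g 0`, `g 1`, `g 2`: it
lies in the closure in `L²` of the finite sums of products `h₀ * h 0 * h 1 * h 2` of bounded
functions such that, up to phases, `h₀` is constant along `s`, and `h j` has the same values along
`s` as along `g j`. -/
def Structured {X : Type} [MeasurableSpace X] (μ : Measure X) (G : Subgroup (Equiv.Perm X))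
    (j₀ : Fin 3) (g : Fin 3 → ℤ → Equiv.Perm X) (s : ℤ → Equiv.Perm X) (f : X → ℂ) : Prop :=
  ∀ ε : ℝ, 0 < ε → ∃ (l : ℕ) (h₀ : Fin l → X → ℂ) (h : Fin l → Fin 3 → X → ℂ),
    (∀ i, MemLp (h₀ i) ∞ μ ∧
      ∃ u, Phase μ G u ∧ ∀ n, ∀ᵐ x ∂μ, h₀ i (s n x) = u x n * h₀ i x) ∧
    (∀ i j, MemLp (h i j) ∞ μ ∧ Free μ G j₀ g j (h i j) ∧
      ∃ u, Phase μ G u ∧ ∀ n, ∀ᵐ x ∂μ, h i j (s n x) = u x n * h i j (g j n x)) ∧
    eLpNorm (fun x => f x - ∑ i, h₀ i x * ∏ j, h i j x) 2 μ ≤ ENNReal.ofReal ε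

theorem result :
    ∀ (X : Type) [MeasurableSpace X] (μ : Measure X) [IsProbabilityMeasure μ]
      (d : ℕ) (T : Fin d → Equiv.Perm X), IsSystem μ T →
      ∀ (r : ℕ) (P : Fin d → Fin (3 + r) → Polynomial ℤ), (∀ i j, (P i j).eval 0 = 0) →
      (∀ i (j : Fin 3), (P i (Fin.castAdd r j)).natDegree ≤ 1) →
      ∀ (f : Fin (3 + r) → X → ℂ), (∀ j, MemLp (f j) ∞ μ) →
      ∀ (Φ : Polynomial ℝ), Φ.natDegree ≤ 3 →
      -- an extension of the system, for example the system itself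
      ∀ (Y : Type) [MeasurableSpace Y] (ν : Measure Y) [IsProbabilityMeasure ν]
        (S : Fin d → Equiv.Perm Y) (π : Y → X), IsSystem ν S → MeasurePreserving π ν μ →
      (∀ i, ∀ᵐ y ∂ν, π (S i y) = T i (π y)) →
      ∀ j₀ : Fin 3,
      (∀ j : Fin 3, Free ν (Subgroup.closure (Set.range S)) j₀
        (fun j => seq S fun i => P i (Fin.castAdd r j)) j (fun y => f (Fin.castAdd r j) (π y))) →
      (∀ j : Fin r, Structured ν (Subgroup.closure (Set.range S)) j₀
        (fun j => seq S fun i => P i (Fin.castAdd r j))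
        (seq S fun i => P i (Fin.natAdd 3 j)) (fun y => f (Fin.natAdd 3 j) (π y))) →
      ∀ᵐ x ∂μ, ∃ L : ℂ, Filter.Tendsto
        (fun N : ℕ => ((2 * N + 1 : ℕ) : ℂ)⁻¹ *
          ∑ n ∈ Finset.Icc (-(N : ℤ)) (N : ℤ),
            Complex.exp (2 * Real.pi * Complex.I * (Φ.eval (n : ℝ) : ℝ)) *
              ∏ j : Fin (3 + r), f j (seq T (fun i => P i j) n x))
        Filter.atTop (nhds L) := by
  intro X _ μ _ d T hT r P hP0 hP1 f hf Φ hΦ Y _ ν _ S π hS hπ hπS j₀ hA hSt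
  exact Pool.PWM.struct_extA 3 (Pool.PWM.baseWA3 (Pool.PWM.finTh_of_bin 3 Pool.M3.binTh3)) X μ d T
    hT.1 hT.2 r P hP0 hP1 f hf Y ν S ⟨hS.1, hS.2, hS.3⟩ π hπ hπS j₀ hA hSt Φ hΦ

/-- Three functions (`r = 0` and no extension). -/
theorem three_functions (X : Type) [MeasurableSpace X] (μ : Measure X)
    [IsProbabilityMeasure μ] (d : ℕ) (T : Fin d → Equiv.Perm X)
    (hT : IsSystem μ T) (P : Fin d → Fin 3 → Polynomial ℤ) (hP0 : ∀ i j, (P i j).eval 0 = 0)
    (hP1 : ∀ i j, (P i j).natDegree ≤ 1) (f : Fin 3 → X → ℂ) (hf : ∀ j, MemLp (f j) ∞ μ)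
    (hE : ∃ j₀ : Fin 3, ∀ j, InE μ (Subgroup.closure (Set.range T)) (f j) ∨
      (j = j₀ ∧ ∃ V : Equiv.Perm X, ∀ n : ℤ,
        (List.ofFn fun l : Fin d => T l ^ (P l j).eval n).prod = V ^ n)) :
    ∀ᵐ x ∂μ, ∃ L : ℂ, Filter.Tendsto
      (fun N : ℕ => ((2 * N + 1 : ℕ) : ℂ)⁻¹ *
        ∑ n ∈ Finset.Icc (-(N : ℤ)) (N : ℤ),
          ∏ j : Fin 3, f j ((List.ofFn fun i : Fin d => T i ^ (P i j).eval n).prod x))
      Filter.atTop (nhds L) := by
  obtain ⟨j₀, hE⟩ := hE
  have h := result X μ d T hT 0 P hP0 hP1 f hf 0 (by simp) X μ T id hT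
    (MeasurePreserving.id μ) (fun i => Eventually.of_forall fun y => rfl) j₀ hE
    (fun j => j.elim0)
  filter_upwards [h] with x hx
  obtain ⟨L, hL⟩ := hx
  refine ⟨L, hL.congr fun N => ?_⟩
  congr 1
  refine Finset.sum_congr rfl fun n _ => ?_
  simp only [Polynomial.eval_zero, Complex.ofReal_zero, mul_zero, Complex.exp_zero, one_mul]
  rfl

/-- If the maps commute, all bounded functions lie in `E`. -/
theorem inE_of_commute {X : Type} [MeasurableSpace X] (μ : Measure X) {d : ℕ}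
    (T : Fin d → Equiv.Perm X) (hc : ∀ i i', Commute (T i) (T i'))
    (f : X → ℂ) (hf : MemLp f ∞ μ) : InE μ (Subgroup.closure (Set.range T)) f :=
  Pool.PWM.InAc_of_InEK (NP2.fin4_comm μ T hc 1 le_rfl f hf)

lemma ofFn_single {G : Type} [Group G] : ∀ (d : ℕ) (a : Fin d → G) (j : Fin d),
    (List.ofFn fun i => if i = j then a i else 1).prod = a j := by
  intro d
  induction d with
  | zero => intro a j; exact j.elim0
  | succ d ih =>
    intro a j
    rw [List.ofFn_succ, List.prod_cons]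
    refine Fin.cases ?_ (fun j => ?_) j
    · have h : (fun i : Fin d => if i.succ = (0 : Fin (d + 1)) then a i.succ else 1) =
          fun _ => 1 := by
        funext i
        rw [if_neg (Fin.succ_ne_zero i)]
      rw [h, if_pos rfl, List.ofFn_const, List.prod_replicate, one_pow, mul_one]
    · rw [if_neg (Fin.succ_ne_zero j).symm, one_mul]
      simp only [Fin.succ_inj]
      exact ih (fun i => a i.succ) j

/-- `f` lies in the closure in `L²` of the finite sums of products `h₀ * h 0 * h 1 * h 2`, where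
`h₀` is a bounded eigenfunction of `W` and `h j` is a bounded eigenfunction of `W * (V j)⁻¹`. -/
def EigenProducts {X : Type} [MeasurableSpace X] (μ : Measure X) (V : Fin 3 → Equiv.Perm X)
    (W : Equiv.Perm X) (f : X → ℂ) : Prop :=
  ∀ ε : ℝ, 0 < ε → ∃ (l : ℕ) (h₀ : Fin l → X → ℂ) (h : Fin l → Fin 3 → X → ℂ),
    (∀ i, MemLp (h₀ i) ∞ μ ∧ ∃ c : ℂ, ‖c‖ = 1 ∧ ∀ᵐ x ∂μ, h₀ i (W x) = c * h₀ i x) ∧
    (∀ i j, MemLp (h i j) ∞ μ ∧ ∃ c : ℂ, ‖c‖ = 1 ∧ ∀ᵐ x ∂μ, h i j (W x) = c * h i j (V j x)) ∧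
    eLpNorm (fun x => f x - ∑ i, h₀ i x * ∏ j, h i j x) 2 μ ≤ ENNReal.ofReal ε

/-- a number of modulus one gives a phase -/
lemma phase_zpow {X : Type} [MeasurableSpace X] (μ : Measure X) (G : Subgroup (Equiv.Perm X))
    {c : ℂ} (hc : ‖c‖ = 1) : Phase μ G fun _ n => c ^ n := by
  refine ⟨fun n => aestronglyMeasurable_const, fun γ _ n => Eventually.of_forall fun x => rfl,
    Eventually.of_forall fun x => ⟨Polynomial.C (c.arg / (2 * Real.pi)) * Polynomial.X, ?_,
      fun n => ?_⟩⟩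
  · exact (Polynomial.natDegree_C_mul_le _ _).trans (Polynomial.natDegree_X_le.trans (by norm_num))
  · have h1 : c = Complex.exp (c.arg * Complex.I) := by
      conv_lhs => rw [← Complex.norm_mul_exp_arg_mul_I c]
      rw [hc, Complex.ofReal_one, one_mul]
    show c ^ n = _
    conv_lhs => rw [h1]
    rw [← Complex.exp_int_mul]
    congr 1
    have hpi : (Real.pi : ℂ) ≠ 0 := by exact_mod_cast Real.pi_ne_zero
    simp only [Polynomial.eval_mul, Polynomial.eval_C, Polynomial.eval_X]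
    push_cast
    field_simp

/-- iteration of an equation `h(W x) = c h(V x)` for commuting maps -/
lemma iter_eq {X : Type} [MeasurableSpace X] {μ : Measure X} {V W : Equiv.Perm X}
    (hV : Pool.PWZ.MP2 μ V) (hW : Pool.PWZ.MP2 μ W) (hc : Commute V W) {h : X → ℂ} {c : ℂ}
    (hc1 : ‖c‖ = 1) (he : ∀ᵐ x ∂μ, h (W x) = c * h (V x)) (n : ℤ) :
    ∀ᵐ x ∂μ, h ((W ^ n) x) = c ^ n * h ((V ^ n) x) := by
  have hc0 : c ≠ 0 := by
    intro h0
    rw [h0, norm_zero] at hc1
    exact zero_ne_one hc1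
  have hWn : ∀ n : ℤ, Pool.PWZ.MP2 μ (W ^ n) := fun n => hW.zpow n
  have hVn : ∀ n : ℤ, Pool.PWZ.MP2 μ (V ^ n) := fun n => hV.zpow n
  induction n using Int.induction_on with
  | zero => exact Eventually.of_forall fun x => by simp
  | succ n ih =>
    -- `h (W (W^n x)) = c h (V W^n x) = c h (W^n V x) = c c^n h (V^n V x)`
    filter_upwards [(hWn n).1.quasiMeasurePreserving.ae he,
      hV.1.quasiMeasurePreserving.ae ih] with x e1 e2
    have a1 : (W ^ ((n : ℤ) + 1)) x = W ((W ^ (n : ℤ)) x) := by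
      rw [add_comm, zpow_add, zpow_one]; rfl
    have a2 : V ((W ^ (n : ℤ)) x) = (W ^ (n : ℤ)) (V x) := by
      have := (hc.zpow_right (n : ℤ)).eq
      exact congrFun (congrArg DFunLike.coe this) x
    have a3 : (V ^ (n : ℤ)) (V x) = (V ^ ((n : ℤ) + 1)) x := by
      rw [zpow_add, zpow_one]; rfl
    rw [a1, e1, a2, e2, a3, zpow_add₀ hc0, zpow_one]
    ring
  | pred n ih =>
    -- at the point `W⁻¹ y`
    have he' : ∀ᵐ x ∂μ, h (W⁻¹ x) = c⁻¹ * h (V⁻¹ x) := by
      have h1 : Pool.PWZ.MP2 μ (V⁻¹ * W⁻¹) := hV.inv.mul hW.inv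
      filter_upwards [h1.1.quasiMeasurePreserving.ae he] with x e1
      have a1 : W ((V⁻¹ * W⁻¹) x) = V⁻¹ x := by
        have : W * (V⁻¹ * W⁻¹) = V⁻¹ := by
          rw [← mul_assoc, (hc.symm.inv_right).eq, mul_assoc, mul_inv_cancel, mul_one]
        exact congrFun (congrArg DFunLike.coe this) x
      have a2 : V ((V⁻¹ * W⁻¹) x) = W⁻¹ x := by
        have : V * (V⁻¹ * W⁻¹) = W⁻¹ := by rw [mul_inv_cancel_left]
        exact congrFun (congrArg DFunLike.coe this) x
      rw [a1, a2] at e1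
      rw [e1, inv_mul_cancel_left₀ hc0]
    filter_upwards [(hWn (-(n : ℤ))).1.quasiMeasurePreserving.ae he',
      hV.inv.1.quasiMeasurePreserving.ae ih] with x e1 e2
    have a1 : (W ^ (-(n : ℤ) - 1)) x = W⁻¹ ((W ^ (-(n : ℤ))) x) := by
      rw [sub_eq_neg_add, zpow_add, zpow_neg_one]; rfl
    have a2 : V⁻¹ ((W ^ (-(n : ℤ))) x) = (W ^ (-(n : ℤ))) (V⁻¹ x) := by
      have := (hc.inv_left.zpow_right (-(n : ℤ))).eq
      exact congrFun (congrArg DFunLike.coe this) x
    have a3 : (V ^ (-(n : ℤ))) (V⁻¹ x) = (V ^ (-(n : ℤ) - 1)) x := by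
      rw [sub_eq_add_neg, zpow_add, zpow_neg_one]; rfl
    rw [a1, e1, a2, e2, a3, sub_eq_add_neg, zpow_add₀ hc0, zpow_neg_one]
    ring

/-- Commuting maps `V 0`, `V 1`, `V 2` and `V (3 + j)`: the functions `f 0`, `f 1`, `f 2` are
arbitrary, the other ones are in the closed span of the products of eigenfunctions of
`V (3 + j)` and of the maps `V (3 + j) * (V i)⁻¹`, `i = 0, 1, 2`. -/
theorem commuting_maps (X : Type) [MeasurableSpace X] (μ : Measure X)
    [IsProbabilityMeasure μ] (r : ℕ) (V : Fin (3 + r) → Equiv.Perm X)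
    (hV' : ∀ i, Measurable ⇑(V i).symm) (hV : ∀ i, MeasurePreserving (⇑(V i)) μ μ)
    (hc : ∀ i i', Commute (V i) (V i')) (f : Fin (3 + r) → X → ℂ) (hf : ∀ j, MemLp (f j) ∞ μ)
    (hs : ∀ j : Fin r, EigenProducts μ (fun i => V (Fin.castAdd r i)) (V (Fin.natAdd 3 j))
      (f (Fin.natAdd 3 j)))
    (Φ : Polynomial ℝ) (hΦ : Φ.natDegree ≤ 3) :
    ∀ᵐ x ∂μ, ∃ L : ℂ, Filter.Tendsto
      (fun N : ℕ => ((2 * N + 1 : ℕ) : ℂ)⁻¹ *
        ∑ n ∈ Finset.Icc (-(N : ℤ)) (N : ℤ),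
          Complex.exp (2 * Real.pi * Complex.I * (Φ.eval (n : ℝ) : ℝ)) *
            ∏ j : Fin (3 + r), f j ((V j ^ n) x))
      Filter.atTop (nhds L) := by
  classical
  have hseq : ∀ (j : Fin (3 + r)) (n : ℤ),
      seq V (fun i => if i = j then (Polynomial.X : Polynomial ℤ) else 0) n = V j ^ n := by
    intro j n
    have h1 : (fun i => V i ^ (if i = j then (Polynomial.X : Polynomial ℤ) else 0).eval n) =
        fun i => if i = j then V i ^ n else 1 := by
      funext i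
      split_ifs with h <;> simp
    show (List.ofFn fun i => V i ^ (if i = j then (Polynomial.X : Polynomial ℤ) else 0).eval n).prod
      = V j ^ n
    rw [h1]
    exact ofFn_single _ (fun i => V i ^ n) j
  have hnil : Group.IsNilpotent (Subgroup.closure (Set.range V)) := by
    have h1 : ∀ a b : Subgroup.closure (Set.range V), a * b = b * a := by
      have h2 : ∀ a ∈ Subgroup.closure (Set.range V), ∀ b ∈ Subgroup.closure (Set.range V),
          a * b = b * a := by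
        intro a ha b hb
        have h3 : Set.range V ⊆ (Subgroup.centralizer (Set.range V) : Set (Equiv.Perm X)) := by
          rintro _ ⟨i, rfl⟩
          rw [SetLike.mem_coe, Subgroup.mem_centralizer_iff]
          rintro _ ⟨i', rfl⟩
          exact (hc i' i).eq
        have h4 : a ∈ Subgroup.centralizer (Set.range V) := (Subgroup.closure_le _).2 h3 ha
        have h5 : Set.range V ⊆ (Subgroup.centralizer {a} : Set (Equiv.Perm X)) := by
          intro v hv
          rw [SetLike.mem_coe, Subgroup.mem_centralizer_iff]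
          rintro _ rfl
          exact ((Subgroup.mem_centralizer_iff.1 h4) v hv).symm
        have h6 : b ∈ Subgroup.centralizer {a} := (Subgroup.closure_le _).2 h5 hb
        exact (Subgroup.mem_centralizer_iff.1 h6) a rfl
      intro a b
      exact Subtype.ext (h2 a a.2 b b.2)
    let _i : CommGroup (Subgroup.closure (Set.range V)) :=
      { (inferInstance : Group (Subgroup.closure (Set.range V))) with mul_comm := h1 }
    exact CommGroup.isNilpotent
  have hsys : IsSystem μ V := ⟨hV', hV, hnil⟩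
  have hm2 : ∀ i, Pool.PWZ.MP2 μ (V i) := fun i => Pool.PWZ.MP2.of (hV' i) (hV i)
  have h := result X μ (3 + r) V hsys r
    (fun i j => if i = j then Polynomial.X else 0)
    (fun i j => by split_ifs <;> simp)
    (fun i j => by split_ifs <;> simp)
    f hf Φ hΦ X μ V id hsys (MeasurePreserving.id μ) (fun i => Eventually.of_forall fun y => rfl) 0
    (fun j => Or.inl (inE_of_commute μ V hc _ (hf _)))
    (fun j ε hε => by
      obtain ⟨l, h₀, h, H0, H1, H2⟩ := hs j ε hε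
      refine ⟨l, h₀, h, fun i => ?_, fun i k => ?_, H2⟩
      · obtain ⟨hm, c, hc1, hce⟩ := H0 i
        refine ⟨hm, _, phase_zpow μ _ hc1, fun n => ?_⟩
        have h3 := iter_eq (V := 1) Pool.PWZ.MP2.one (hm2 (Fin.natAdd 3 j)) (Commute.one_left _)
          hc1 (h := h₀ i) (by simpa using hce) n
        rw [hseq]
        simpa using h3
      · obtain ⟨hm, c, hc1, hce⟩ := H1 i k
        refine ⟨hm, Or.inl (inE_of_commute μ V hc _ hm), _, phase_zpow μ _ hc1, fun n => ?_⟩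
        have h3 := iter_eq (hm2 (Fin.castAdd r k)) (hm2 (Fin.natAdd 3 j)) (hc _ _) hc1
          (h := h i k) hce n
        rw [hseq]
        simp only [hseq]
        exact h3)
  filter_upwards [h] with x hx
  obtain ⟨L, hL⟩ := hx
  refine ⟨L, hL.congr fun N => ?_⟩
  simp only [hseq]

end Pool.Agent.Results.MP_4d8f14_an.ThreeMapsPlus
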