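import Pool.Agent.NPK.End2
import Pool.Agent.NPG.Mdl
import Pool.Agent.NPG.UAll
import Pool.Agent.NPG.ThA

set_option autoImplicit false

/-!
# Two arbitrary functions and any number of structured functions, nilpotent groups of any step

`G` is a nilpotent group of any step of invertible measure preserving maps, `g_j` arbitrary
polynomial sequences, `m` arbitrary.  The averages of `∏ j, f_j(g_j(n) x)` converge almost
everywhere if all but at most two of the functions `f_j` lie in the closed span `K(g_j)` of the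
functions on which a normal subgroup containing all `g_j(n)` acts by `G`-invariant functions (for
example in the Kronecker factor of `G`), and the remaining ones in the closed span `L(g_j)` of the
functions on which a normal subgroup containing `V ^ (-n) * g_j(n)` for all `n` and some `V` acts in
this way (these are all bounded functions if `g_j(n) = V ^ n`).

In particular (`two_maps`, `polynomial_phase`) the averages of `f(T^n x) g(S^n x)`, and of
`e(Q(n)) f(T^n x) g(S^n x)` for every real polynomial `Q`, converge almost everywhere for arbitrary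
bounded `f`, `g` and arbitrary `T`, `S` which generate a nilpotent group.

The proof.

* Two powers (`Pool/Agent/NPG`, paper proof: notes 3378, 3425, 3426 of the team).  `G` is replaced
  by finite quotients `A` of the group generated by `T` and `S`; objects `u` (orbits of `T`) and `v`
  (orbits of `S`), tied at time `c` if `v = th c * u`, `th c = S^(-c) T^c`.  Finite theorem (`ThmA`,
  `thm_A`): for arbitrary functions `F(u,t)`, `G(v,t)` bounded by one the averages of
  `F(u,·) G(v,·)` over the dyadic blocks of `c` have, outside a set of small measure, a bounded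
  number of jumps, uniformly in the number of scales, the finite group, `F` and `G`.  Geometry of
  the finite quotients: `GFrA` to `GPig`.  Kernels `∑ c_d b_d^* b_d` with Mertens type
  coefficients, gain of the averages along the curve `th`, almost orthogonality: `OBox` to `OGai`,
  `UUni`, `UInp`, `UAll`.  Square function for moving processes: `EAF` to `EMain`.  Local clock,
  Rademacher-Menshov argument in clock time: `Proc` to `FEnd`.  Ridge regression on greedy lists of
  functions, tensor powers: `Dic` to `Rem`, `KeyA` to `ThA`.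
* Polynomial phases (`Pool/Agent/NPK`, `Uni`, `Tor`, `Skw`, `Wgt2`).  For a polynomial phase
  `Φ : ℤ → ℝ / ℤ` there are unipotent affine maps `A`, `B` of a torus with
  `e(Φ(n) - Φ(0)) = F(A^n w) / F(B^n w)` for all `n` and all points `w`, `F(w) = e(w_0)`; the group
  generated by `V_1 × A` and `V_2 × B` is again nilpotent.
* Characters of polynomial sequences are polynomial phases (`Phs`, `Phs2`), everywhere versions of
  the eigenfunctions (`Ev2`), closures slot by slot (`Clo`, `End2`), with the almost everywhere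
  convergence of the averages of one function along a polynomial sequence (`Pool/Agent/Nil`).
-/

open MeasureTheory Filter
open scoped ENNReal commutatorElement

namespace Pool.Agent.Results.MP_4d8f14_an.TwoMapsPlusKronecker

/-- `h` is bounded and behaves along the sequence `s` like an arbitrary function along the powers
of `V`: there is a subgroup `N` of `G`, normalised by `G` and containing `V ^ (-n) * s n` for all
`n`, which acts on `h` by unimodular `G`-invariant functions `χ ν`, and `χ ν` depends only on the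
conjugacy class of `ν` in `G`. -/
def EigFun {X : Type} [MeasurableSpace X] (μ : Measure X) (G : Subgroup (Equiv.Perm X))
    (s : ℤ → Equiv.Perm X) (V : Equiv.Perm X) (h : X → ℂ) : Prop :=
  MemLp h ∞ μ ∧ ∃ N : Subgroup (Equiv.Perm X), N ≤ G ∧
    (∀ γ ∈ G, ∀ ν ∈ N, γ * ν * γ⁻¹ ∈ N) ∧ (∀ n : ℤ, V ^ (-n) * s n ∈ N) ∧
    ∃ χ : Equiv.Perm X → X → ℂ,
      (∀ ν ∈ N, Measurable (χ ν)) ∧
      (∀ ν ∈ N, ∀ᵐ x ∂μ, ‖χ ν x‖ = 1) ∧
      (∀ γ ∈ G, ∀ ν ∈ N, ∀ᵐ x ∂μ, χ ν (γ x) = χ ν x) ∧
      (∀ γ ∈ G, ∀ ν ∈ N, ∀ᵐ x ∂μ, χ (γ * ν * γ⁻¹) x = χ ν x) ∧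
      ∀ ν ∈ N, ∀ᵐ x ∂μ, h (ν x) = χ ν x * h x

/-- `f` lies in the closure in `L²` of the finite sums of functions `h` with `EigFun μ G s V h`,
`V ∈ 𝒱`. -/
def InSpan {X : Type} [MeasurableSpace X] (μ : Measure X) (G : Subgroup (Equiv.Perm X))
    (s : ℤ → Equiv.Perm X) (𝒱 : Set (Equiv.Perm X)) (f : X → ℂ) : Prop :=
  ∀ ε : ℝ, 0 < ε → ∃ (l : ℕ) (h : Fin l → X → ℂ),
    (∀ i, ∃ V ∈ 𝒱, EigFun μ G s V (h i)) ∧
    eLpNorm (fun x => f x - ∑ i, h i x) 2 μ ≤ ENNReal.ofReal ε

theorem result :
    ∀ (X : Type) [MeasurableSpace X] (μ : Measure X) [IsProbabilityMeasure μ]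
      (d m : ℕ) (T : Fin d → Equiv.Perm X),
      (∀ i, Measurable ⇑(T i).symm) →
      (∀ i, MeasurePreserving (⇑(T i)) μ μ) →
      Group.IsNilpotent (Subgroup.closure (Set.range T)) →
      ∀ (P : Fin d → Fin m → Polynomial ℤ) (f : Fin m → X → ℂ), (∀ j, MemLp (f j) ∞ μ) →
      ∀ J : Finset (Fin m), J.card ≤ 2 →
      (∀ j ∈ J, InSpan μ (Subgroup.closure (Set.range T))
        (fun n => (List.ofFn fun i : Fin d => T i ^ (P i j).eval n).prod) Set.univ (f j)) →
      (∀ j ∉ J, InSpan μ (Subgroup.closure (Set.range T))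
        (fun n => (List.ofFn fun i : Fin d => T i ^ (P i j).eval n).prod) {1} (f j)) →
      ∀ᵐ x ∂μ, ∃ L : ℂ, Filter.Tendsto
        (fun N : ℕ => ((2 * N + 1 : ℕ) : ℂ)⁻¹ *
          ∑ n ∈ Finset.Icc (-(N : ℤ)) (N : ℤ),
            ∏ j : Fin m, f j ((List.ofFn fun i : Fin d => T i ^ (P i j).eval n).prod x))
        Filter.atTop (nhds L) := by
  classical
  intro X _ μ _ d m T hs hT hnil P f hf J hJ h1 h2
  have h := NPK.npk2 (NPG.modH NPG.inp_all) NPG.thm_A X μ d m T hs hT hnil P f hf
    (fun j => if j ∈ J then Set.univ else {1}) (fun V hV hVG => ?_) (fun j => ?_)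
  · exact h
  · have hV1 : ∀ j ∉ J, V j = 1 := by
      intro j hj
      have h3 := hV j
      simp only [if_neg hj, Set.mem_singleton_iff] at h3
      exact h3
    have h1G := Subgroup.one_mem (Subgroup.closure (Set.range T))
    rcases Nat.lt_or_ge J.card 1 with h3 | h3
    · have h4 : J = ∅ := Finset.card_eq_zero.1 (by omega)
      exact ⟨1, h1G, 1, h1G, fun j => Or.inl (hV1 j (by rw [h4]; exact Finset.notMem_empty j))⟩
    · rcases Nat.lt_or_ge J.card 2 with h4 | h4
      · obtain ⟨a, ha⟩ := Finset.card_eq_one.1 (show J.card = 1 by omega)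
        refine ⟨V a, hVG a, 1, h1G, fun j => ?_⟩
        by_cases hj : j = a
        · exact Or.inr (Or.inl (by rw [hj]))
        · exact Or.inl (hV1 j (by rw [ha]; simpa using hj))
      · obtain ⟨a, b, _, hab⟩ := Finset.card_eq_two.1 (show J.card = 2 by omega)
        refine ⟨V a, hVG a, V b, hVG b, fun j => ?_⟩
        by_cases hj : j = a
        · exact Or.inr (Or.inl (by rw [hj]))
        · by_cases hj2 : j = b
          · exact Or.inr (Or.inr (by rw [hj2]))
          · exact Or.inl (hV1 j (by rw [hab]; simp [hj, hj2]))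
  · by_cases hj : j ∈ J
    · simp only [if_pos hj]
      exact h1 j hj
    · simp only [if_neg hj]
      exact h2 j hj

/-- along the powers of a map every bounded function is allowed -/
theorem inSpan_pow {X : Type} [MeasurableSpace X] (μ : Measure X) (G : Subgroup (Equiv.Perm X))
    (s : ℤ → Equiv.Perm X) (V : Equiv.Perm X) (hs : ∀ n, s n = V ^ n)
    (f : X → ℂ) (hf : MemLp f ∞ μ) : InSpan μ G s Set.univ f := by
  intro ε hε
  refine ⟨1, fun _ => f, fun _ => ⟨V, Set.mem_univ _, hf, ⊥, bot_le, ?_, ?_, fun _ _ => 1, ?_, ?_,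
    ?_, ?_, ?_⟩, ?_⟩
  · intro γ _ ν hν
    rw [Subgroup.mem_bot] at hν
    rw [hν, mul_one, mul_inv_cancel]
    exact Subgroup.one_mem _
  · intro n
    rw [hs, ← zpow_add, neg_add_cancel, zpow_zero]
    exact Subgroup.one_mem _
  · exact fun _ _ => measurable_const
  · exact fun _ _ => Eventually.of_forall fun _ => norm_one
  · exact fun _ _ _ _ => Eventually.of_forall fun _ => rfl
  · exact fun _ _ _ _ => Eventually.of_forall fun _ => rfl
  · intro ν hν
    rw [Subgroup.mem_bot] at hν
    subst hν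
    exact Eventually.of_forall fun x => by simp
  · simp

/-- `f` lies in the Kronecker factor of `G`: it is in the closure in `L²` of the finite sums of
bounded joint eigenfunctions of `G`. -/
def Kron {X : Type} [MeasurableSpace X] (μ : Measure X) (G : Subgroup (Equiv.Perm X))
    (f : X → ℂ) : Prop :=
  ∀ ε : ℝ, 0 < ε → ∃ (l : ℕ) (h : Fin l → X → ℂ),
    (∀ i, MemLp (h i) ∞ μ ∧ ∀ γ ∈ G, ∃ c : ℂ, ‖c‖ = 1 ∧ ∀ᵐ x ∂μ, h i (γ x) = c * h i x) ∧
    eLpNorm (fun x => f x - ∑ i, h i x) 2 μ ≤ ENNReal.ofReal ε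

/-- functions in the Kronecker factor of `G` are allowed along all sequences in `G` -/
theorem inSpan_of_kron {X : Type} [MeasurableSpace X] (μ : Measure X)
    (G : Subgroup (Equiv.Perm X)) (hG : ∀ γ ∈ G, MeasurePreserving ⇑γ μ μ)
    (s : ℤ → Equiv.Perm X) (hs : ∀ n, s n ∈ G) (f : X → ℂ) (hf : Kron μ G f) :
    InSpan μ G s {1} f := by
  classical
  intro ε hε
  obtain ⟨l, h, h1, h2⟩ := hf ε hε
  refine ⟨l, h, fun i => ⟨1, Set.mem_singleton 1, (h1 i).1, G, le_rfl,
    fun γ hγ ν hν => G.mul_mem (G.mul_mem hγ hν) (G.inv_mem hγ), fun n => ?_, ?_⟩, h2⟩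
  · rw [one_zpow, one_mul]
    exact hs n
  · by_cases h0 : ∀ᵐ x ∂μ, h i x = 0
    · refine ⟨fun _ _ => 1, fun _ _ => measurable_const,
        fun _ _ => Eventually.of_forall fun _ => norm_one,
        fun _ _ _ _ => Eventually.of_forall fun _ => rfl,
        fun _ _ _ _ => Eventually.of_forall fun _ => rfl, fun ν hν => ?_⟩
      filter_upwards [h0, (hG ν hν).quasiMeasurePreserving.ae h0] with x e1 e2
      rw [e1, e2, mul_zero]
    · choose c hc1 hc2 using (h1 i).2
      obtain ⟨χ, hχ⟩ : ∃ χ : Equiv.Perm X → ℂ, ∀ γ (hγ : γ ∈ G), χ γ = c γ hγ :=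
        ⟨fun γ => if hγ : γ ∈ G then c γ hγ else 0, fun γ hγ => dif_pos hγ⟩
      have e1 : ∀ γ ∈ G, ∀ᵐ x ∂μ, h i (γ x) = χ γ * h i x := fun γ hγ => by
        rw [hχ γ hγ]
        exact hc2 γ hγ
      have key : ∀ a b : ℂ, (∀ᵐ x ∂μ, a * h i x = b * h i x) → a = b := by
        intro a b hab
        by_contra hne
        apply h0
        filter_upwards [hab] with x hx
        by_contra hx0
        exact hne (mul_right_cancel₀ hx0 hx)
      have hmul : ∀ a ∈ G, ∀ b ∈ G, χ (a * b) = χ a * χ b := by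
        intro a ha b hb
        apply key
        filter_upwards [e1 (a * b) (G.mul_mem ha hb), e1 b hb,
          (hG b hb).quasiMeasurePreserving.ae (e1 a ha)] with x y1 y2 y3
        rw [← y1, Equiv.Perm.mul_apply, y3, y2, mul_assoc]
      have hone : χ 1 = 1 := by
        apply key
        filter_upwards [e1 1 G.one_mem] with x y1
        rw [← y1, one_mul]
        rfl
      refine ⟨fun ν _ => χ ν, fun _ _ => measurable_const,
        fun ν hν => Eventually.of_forall fun _ => by
          show ‖χ ν‖ = 1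
          rw [hχ ν hν]; exact hc1 ν hν,
        fun _ _ _ _ => Eventually.of_forall fun _ => rfl,
        fun γ hγ ν hν => Eventually.of_forall fun _ => ?_, e1⟩
      show χ (γ * ν * γ⁻¹) = χ ν
      rw [hmul _ (G.mul_mem hγ hν) _ (G.inv_mem hγ), hmul _ hγ _ hν, mul_right_comm,
        ← hmul _ hγ _ (G.inv_mem hγ), mul_inv_cancel, hone, one_mul]

/-- functions in the closed span of the eigenfunctions of the commutator subgroup are allowed along
linear sequences -/
theorem inSpan_of_inE {X : Type} [MeasurableSpace X] (μ : Measure X) {d : ℕ}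
    (T : Fin d → Equiv.Perm X) (P : Fin d → Polynomial ℤ) (hP0 : ∀ i, (P i).eval 0 = 0)
    (hP1 : ∀ i, (P i).natDegree ≤ 1) (f : X → ℂ)
    (hf : NP2.InEK μ (Subgroup.closure (Set.range T)) 1 f) :
    InSpan μ (Subgroup.closure (Set.range T))
      (fun n => (List.ofFn fun i : Fin d => T i ^ (P i).eval n).prod) Set.univ f := by
  have hTG : ∀ i, T i ∈ Subgroup.closure (Set.range T) := fun i =>
    Subgroup.subset_closure ⟨i, rfl⟩
  obtain ⟨G, hG⟩ : ∃ G, G = Subgroup.closure (Set.range T) := ⟨_, rfl⟩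
  rw [← hG] at hf hTG ⊢
  have heval : ∀ i (n : ℤ), (P i).eval n = (P i).coeff 1 * n := by
    intro i n
    have h := Polynomial.eq_X_add_C_of_natDegree_le_one (hP1 i)
    have h0 : (P i).coeff 0 = 0 := by
      rw [Polynomial.coeff_zero_eq_eval_zero]; exact hP0 i
    conv_lhs => rw [h]
    simp [h0]
  obtain ⟨T', hT'⟩ : ∃ T' : Fin d → G, ∀ i, (T' i : Equiv.Perm X) = T i :=
    ⟨fun i => ⟨T i, hTG i⟩, fun i => rfl⟩
  have hco : ∀ e : Fin d → ℤ, (((List.ofFn fun i => T' i ^ e i).prod : G) : Equiv.Perm X) =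
      (List.ofFn fun i => T i ^ e i).prod := by
    intro e
    rw [Subgroup.val_list_prod, List.map_ofFn]
    congr 2
    funext i
    simp only [Function.comp_apply, Subgroup.coe_zpow, hT']
  have hmem : ∀ n : ℤ, ((List.ofFn fun i => T i ^ (P i).coeff 1).prod) ^ (-n) *
      (List.ofFn fun i => T i ^ (P i).eval n).prod ∈ ⁅G, G⁆ := by
    intro n
    have h1 : ((List.ofFn fun i => T' i ^ (P i).coeff 1).prod) ^ (-n) *
        (List.ofFn fun i => T' i ^ (P i).eval n).prod ∈ commutator G := by
      rw [← Abelianization.ker_of, MonoidHom.mem_ker, map_mul, map_zpow, map_list_prod,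
        map_list_prod, List.map_ofFn, List.map_ofFn, List.prod_ofFn, List.prod_ofFn]
      simp only [Function.comp_apply, map_zpow, heval, zpow_mul]
      rw [Finset.prod_zpow, ← zpow_add, neg_add_cancel, zpow_zero]
    rw [← Subgroup.map_subtype_commutator]
    refine ⟨_, h1, ?_⟩
    rw [Subgroup.subtype_apply, Subgroup.coe_mul, Subgroup.coe_zpow, hco, hco]
  intro ε hε
  obtain ⟨l, h, h1, h2⟩ := hf ε hε
  refine ⟨l, h, fun i => ?_, h2⟩
  obtain ⟨e0, χ, e1, e2, e3⟩ := h1 i
  refine ⟨(List.ofFn fun i => T i ^ (P i).coeff 1).prod, Set.mem_univ _, e0, ⁅G, G⁆, ?_, ?_, hmem,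
    fun ν _ => χ ν, fun _ _ => measurable_const,
    fun ν hν => Eventually.of_forall fun _ => e1 ν hν,
    fun _ _ _ _ => Eventually.of_forall fun _ => rfl,
    fun γ hγ ν hν => Eventually.of_forall fun _ => e2 γ hγ ν hν, e3⟩
  · exact Subgroup.commutator_le_self G
  · intro γ hγ ν hν
    have e : γ * ν * γ⁻¹ = ⁅γ, ν⁆ * ν := by
      rw [commutatorElement_def, inv_mul_cancel_right]
    rw [e]
    exact Subgroup.mul_mem _ (Subgroup.commutator_mem_commutator hγ
      (Subgroup.commutator_le_self G hν)) hν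

/-- two powers, and any number of functions in the Kronecker factor of `G` along arbitrary
polynomial sequences -/
theorem two_maps_and_kronecker {X : Type} [MeasurableSpace X] (μ : Measure X)
    [IsProbabilityMeasure μ] {d m : ℕ} (T : Fin d → Equiv.Perm X)
    (hs : ∀ i, Measurable ⇑(T i).symm) (hT : ∀ i, MeasurePreserving (⇑(T i)) μ μ)
    (hnil : Group.IsNilpotent (Subgroup.closure (Set.range T)))
    (P : Fin d → Fin m → Polynomial ℤ) (f : Fin m → X → ℂ) (hf : ∀ j, MemLp (f j) ∞ μ)
    (J : Finset (Fin m)) (hJ : J.card ≤ 2)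
    (h1 : ∀ j ∈ J, ∃ V : Equiv.Perm X, ∀ n : ℤ,
      (List.ofFn fun i : Fin d => T i ^ (P i j).eval n).prod = V ^ n)
    (h2 : ∀ j ∉ J, Kron μ (Subgroup.closure (Set.range T)) (f j)) :
    ∀ᵐ x ∂μ, ∃ L : ℂ, Filter.Tendsto
      (fun N : ℕ => ((2 * N + 1 : ℕ) : ℂ)⁻¹ *
        ∑ n ∈ Finset.Icc (-(N : ℤ)) (N : ℤ),
          ∏ j : Fin m, f j ((List.ofFn fun i : Fin d => T i ^ (P i j).eval n).prod x))
      Filter.atTop (nhds L) := by
  have hG : ∀ γ ∈ Subgroup.closure (Set.range T), MeasurePreserving ⇑γ μ μ := fun γ hγ =>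
    (NP2.mp2_closure T (fun i => Pool.PWZ.MP2.of (hs i) (hT i)) γ hγ).1
  refine result X μ d m T hs hT hnil P f hf J hJ (fun j hj => ?_) fun j hj => ?_
  · obtain ⟨V, hV⟩ := h1 j hj
    exact inSpan_pow μ _ _ V hV (f j) (hf j)
  · exact inSpan_of_kron μ _ hG _ (fun n => NPK.sq_mem T (fun i => P i j) n) (f j) (h2 j hj)

/-- The case of two powers. -/
theorem two_maps (X : Type) [MeasurableSpace X] (μ : Measure X) [IsProbabilityMeasure μ]
    (T S : Equiv.Perm X) (hT : Measurable ⇑T.symm) (hS : Measurable ⇑S.symm)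
    (hTm : MeasurePreserving (⇑T) μ μ) (hSm : MeasurePreserving (⇑S) μ μ)
    (hnil : Group.IsNilpotent (Subgroup.closure {T, S}))
    (f g : X → ℂ) (hf : MemLp f ∞ μ) (hg : MemLp g ∞ μ) :
    ∀ᵐ x ∂μ, ∃ L : ℂ, Filter.Tendsto
      (fun N : ℕ => ((2 * N + 1 : ℕ) : ℂ)⁻¹ *
        ∑ n ∈ Finset.Icc (-(N : ℤ)) (N : ℤ), f ((T ^ n) x) * g ((S ^ n) x))
      Filter.atTop (nhds L) := by
  have hr : Set.range ![T, S] = {T, S} := by
    rw [Matrix.range_cons, Matrix.range_cons, Matrix.range_empty, Set.union_empty]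
    rfl
  have hG : (fun n : ℤ => (List.ofFn fun i : Fin 2 => (![T, S]) i ^
      ((![![Polynomial.X, 0], ![0, Polynomial.X]] : Fin 2 → Fin 2 → Polynomial ℤ) i 0).eval n).prod)
      = fun n => T ^ n := by
    funext n
    simp [List.ofFn_succ]
  have hG' : (fun n : ℤ => (List.ofFn fun i : Fin 2 => (![T, S]) i ^
      ((![![Polynomial.X, 0], ![0, Polynomial.X]] : Fin 2 → Fin 2 → Polynomial ℤ) i 1).eval n).prod)
      = fun n => S ^ n := by
    funext n
    simp [List.ofFn_succ]
  have h := result X μ 2 2 ![T, S] (fun i => by fin_cases i <;> assumption)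
    (fun i => by fin_cases i <;> assumption) (by rw [hr]; exact hnil)
    ![![Polynomial.X, 0], ![0, Polynomial.X]] ![f, g] (fun j => by fin_cases j <;> assumption)
    Finset.univ (by simp) (fun j _ => by
      fin_cases j
      · exact inSpan_pow μ _ _ T (fun n => congrFun hG n) f hf
      · exact inSpan_pow μ _ _ S (fun n => congrFun hG' n) g hg)
    (fun j hj => absurd (Finset.mem_univ j) hj)
  filter_upwards [h] with x hx
  obtain ⟨L, hL⟩ := hx
  refine ⟨L, hL.congr fun N => ?_⟩
  congr 1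
  refine Finset.sum_congr rfl fun n _ => ?_
  simp [Fin.prod_univ_two, List.ofFn_succ]

/-- Two powers with a polynomial phase. -/
theorem polynomial_phase (X : Type) [MeasurableSpace X] (μ : Measure X) [IsProbabilityMeasure μ]
    (T S : Equiv.Perm X) (hT : Measurable ⇑T.symm) (hS : Measurable ⇑S.symm)
    (hTm : MeasurePreserving (⇑T) μ μ) (hSm : MeasurePreserving (⇑S) μ μ)
    (hnil : Group.IsNilpotent (Subgroup.closure {T, S}))
    (f g : X → ℂ) (hf : MemLp f ∞ μ) (hg : MemLp g ∞ μ) (Q : Polynomial ℝ) :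
    ∀ᵐ x ∂μ, ∃ L : ℂ, Filter.Tendsto
      (fun N : ℕ => ((2 * N + 1 : ℕ) : ℂ)⁻¹ *
        ∑ n ∈ Finset.Icc (-(N : ℤ)) (N : ℤ),
          Complex.exp (2 * Real.pi * Q.eval (n : ℝ) * Complex.I) *
            (f ((T ^ n) x) * g ((S ^ n) x)))
      Filter.atTop (nhds L) := by
  have h1 : ∀ (a : ℕ) (n : ℤ), NPK.df^[a] (fun n : ℤ => ((Q.eval (n : ℝ) : ℝ) : UnitAddCircle)) n =
      (((fwdDiff (1 : ℝ))^[a] Q.eval (n : ℝ) : ℝ) : UnitAddCircle) := by
    intro a
    induction a with
    | zero => intro n; rfl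
    | succ a ih =>
      intro n
      rw [Function.iterate_succ_apply', Function.iterate_succ_apply']
      show NPK.df^[a] _ (n + 1) - NPK.df^[a] _ n = _
      rw [ih, ih]
      unfold fwdDiff
      push_cast
      rfl
  have h2 : NPK.df^[Q.natDegree + 1] (fun n : ℤ => ((Q.eval (n : ℝ) : ℝ) : UnitAddCircle)) = 0 := by
    funext n
    rw [h1, Polynomial.fwdDiff_iter_degree_add_one_eq_zero]
    rfl
  have h := NPK.wgt (NPG.modH NPG.inp_all) NPG.thm_A μ ![T, S] (fun j => by
      fin_cases j
      · exact NP2.MI.of hT hTm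
      · exact NP2.MI.of hS hSm) hnil ![f, g] (fun j => by fin_cases j <;> assumption) _ _ h2
  filter_upwards [h] with x hx
  obtain ⟨L, hL⟩ := hx
  refine ⟨L, hL.congr fun N => ?_⟩
  unfold Pool.PWZ.cav
  congr 1
  refine Finset.sum_congr rfl fun n _ => ?_
  simp only [Fin.prod_univ_two]
  congr 1
  rw [AddCircle.toCircle_apply_mk, Circle.coe_exp]
  push_cast
  congr 1
  ring

end Pool.Agent.Results.MP_4d8f14_an.TwoMapsPlusKronecker
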